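import Mathlib
import Pool.Agent.W635.GPDefs
import Pool.Agent.Helper185.DelDefs2

/-!
# The strong form of the combinatorial principle and its translation to the forcing language
-/

set_option autoImplicit false

namespace Pool.Agent.Y437.GM

open Set Pool.Agent.Helper669.Forcing Pool.Agent.W635.GP Pool.Agent.Helper185.Del

/-- `W` is uncountable, and the subsets `x_β` (`β ∈ W`) of `ℕ` (given by their characteristic
functions) have the following properties. They are centred. For every infinite `a ⊆ ℕ` all but
countably many of them omit infinitely many elements of `a`. For every family `N` of (tagged codes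
of) clopen sets such that every finite set of the `x_β` is contained in members of `N` with
arbitrarily large tags there are sequences `g_j` (`j ∈ J`) of members of `N` with strictly
increasing tags such that for any `j ≠ j'` every `x_β` belongs to `g_j(n) ∪ g_j'(n)` for all but
finitely many `n`. Moreover no function from `J` to `W × K` is injective. -/
def StrongFamily (W K J : Type) (x : W → ℕ → Bool) : Prop :=
  (∀ e : ℕ → W, ∃ β, ∀ i, e i ≠ β) ∧
  (∀ (F : Finset W) (m : ℕ), ∃ n, m ≤ n ∧ ∀ β ∈ F, x β n = true) ∧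
  (∀ a : Set ℕ, (∀ m, ∃ n, m ≤ n ∧ n ∈ a) → ∃ e : ℕ → W, ∀ β, (∀ i, e i ≠ β) →
    ∀ m, ∃ n, m ≤ n ∧ n ∈ a ∧ x β n = false) ∧
  (∀ N : Set Code, (∀ (F : Finset W) (m : ℕ), ∃ c, m ≤ c.2 ∧ c ∈ N ∧ ∀ β ∈ F, Mem (x β) c) →
    ∃ g : J → ℕ → Code, (∀ j n, g j n ∈ N) ∧ (∀ j n m, n < m → (g j n).2 < (g j m).2) ∧
      ∀ j j', j ≠ j' → ∀ β, ∃ m, ∀ n, m ≤ n → Mem (x β) (g j n) ∨ Mem (x β) (g j' n)) ∧
  ∀ f : J → W × K, ∃ j j', j ≠ j' ∧ f j = f j'

section

variable {P : Type} [Preorder P]

/-- Translation of `StrongFamily W K J x` for the sequence of reals named by `X`. -/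
def StrongN (P : Type) [Preorder P] (W K J : Type) (X : W → ℕ → Bool → Set P) : Set P :=
  fand (fall fun e : ℕ → W → Set P => fimp (IsFun e)
    (fex fun β => fall fun i : ℕ => fnot (meets (e i β)))) <|
  fand (fall fun F : Finset W => fall fun m : ℕ => fex fun n : ℕ =>
    fand (fground (m ≤ n)) (fall fun β => fall fun _ : β ∈ F => meets (X β n true))) <|
  fand (fall fun a : ℕ → Set P =>
    fimp (fall fun m : ℕ => fex fun n : ℕ => fand (fground (m ≤ n)) (meets (a n)))
      (fex fun e : ℕ → W → Set P => fand (IsFun e) (fall fun β =>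
        fimp (fall fun i : ℕ => fnot (meets (e i β)))
          (fall fun m : ℕ => fex fun n : ℕ =>
            fand (fground (m ≤ n)) (fand (meets (a n)) (meets (X β n false))))))) <|
  fand (fall fun N : Code → Set P =>
    fimp (fall fun F : Finset W => fall fun m : ℕ => fex fun c : Code =>
        fand (fground (m ≤ c.2)) (fand (meets (N c)) (fall fun β => fall fun _ : β ∈ F =>
          MemN (X β) c)))
      (fex fun g : J → ℕ → Code → Set P =>
        fand (fall fun j => IsFun (g j)) <|
        fand (fall fun j => fall fun n => fall fun c => fimp (meets (g j n c)) (meets (N c))) <|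
        fand (fall fun j => fall fun n => fall fun m => fall fun _ : n < m => fall fun c =>
          fall fun c' => fimp (fand (meets (g j n c)) (meets (g j m c')))
            (fground (c.2 < c'.2))) <|
        fall fun j => fall fun j' => fall fun _ : j ≠ j' => fall fun β => fex fun m : ℕ =>
          fall fun n => fall fun _ : m ≤ n => fex fun c =>
            fand (forr (meets (g j n c)) (meets (g j' n c))) (MemN (X β) c))) <|
  fall fun R : J → W × K → Set P => fimp (IsFun R) (fex fun j => fex fun j' =>
    fand (fground (j ≠ j')) (fex fun v => fand (meets (R j v)) (meets (R j' v))))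

/-- In the extension there is a sequence of reals as in `StrongFamily`. -/
def StrongExistsN (P : Type) [Preorder P] (W K J : Type) : Set P :=
  fex fun X : W → ℕ → Bool → Set P => fand (fall fun β => IsFun (X β)) (StrongN P W K J X)

end

/-- For every sequence `𝒰 0, 𝒰 1, …` of open `ω`-covers of `Z` there are distinct `U n ∈ 𝒰 n` such
that `{n | z ∈ U n} ∈ p i` for every point `z` and for every `i`. -/
def Selects {K : Type*} (p : K → Ultrafilter ℕ) (Z : Type*) [TopologicalSpace Z] : Prop :=
  ∀ 𝒰 : ℕ → Set (Set Z), (∀ n, IsOmegaCover (𝒰 n)) →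
    ∃ U : ℕ → Set Z, Function.Injective U ∧ (∀ n, U n ∈ 𝒰 n) ∧ ∀ i z, {n | z ∈ U n} ∈ p i

/-- The lower limit of a sequence of sets: the points which belong to all but finitely many. -/
def sLim {Z : Type*} (A : ℕ → Set Z) : Set Z := {z | ∀ᶠ n in Filter.atTop, z ∈ A n}

/-- `L(ℱ)`, the smallest family containing `ℱ` and closed under lower limits of sequences. -/
def LL {Z : Type*} (ℱ : Set (Set Z)) : Set (Set Z) :=
  ⋂₀ {ℒ | ℱ ⊆ ℒ ∧ ∀ A : ℕ → Set Z, (∀ n, A n ∈ ℒ) → sLim A ∈ ℒ}

/-- The property `δ` of Gerlits and Nagy: `Z` belongs to `L(𝒰)` for every open `ω`-cover `𝒰`. -/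
def DeltaProperty (Z : Type*) [TopologicalSpace Z] : Prop :=
  ∀ 𝒰 : Set (Set Z), IsOmegaCover 𝒰 → univ ∈ LL 𝒰

end Pool.Agent.Y437.GM
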