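import Mathlib
import Pool.Agent.W635.GPForce
import Pool.Agent.Y437.GM.Defs

/-!
# What the forcing notion forces: the strong form
-/

set_option autoImplicit false

noncomputable section

namespace Pool.Agent.Y437.GM

open Classical Cardinal Pool.Agent.Helper669.Forcing Pool.Agent.W635.GP
open Pool.Agent.W684.FM hiding Cond

variable {W K J : Type}

theorem infinite_of_unc (hW : ¬ Countable W) : Infinite W := by
  by_contra h
  rw [not_infinite_iff_finite] at h
  exact hW inferInstance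

/-- `W` remains uncountable. -/
theorem forced_unc (hW : ¬ Countable W) (p : Cond W J) (e : ℕ → W → Set (Cond W J)) :
    p ∈ fimp (IsFun e) (fex fun β => fall fun i : ℕ => fnot (meets (e i β))) := by
  refine mem_fimp.2 fun q _ he => ⟨q, le_rfl, ?_⟩
  intro r hr hcon
  have h1 : ∀ β : W, ∃ s ≤ r, ∃ i : ℕ, s ∈ meets (e i β) := by
    intro β
    by_contra h
    push Not at h
    have h2 := hcon β r le_rfl
    exact h2 fun i s hs => h s hs i
  choose f hf i hi using h1
  obtain ⟨β, β', hne, hz, s, hs1, hs2⟩ := (pccc (W := W) (J := J)).exists_compat_same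
    (X := W) (Z := ℕ) (by
      rw [mk_nat, aleph0_mul_aleph0]
      by_contra h
      push Not at h
      exact hW (mk_le_aleph0_iff.1 h)) f i
  apply hne
  refine IsFun.unique (down_IsFun e q he s (hs1.trans ((hf β).trans hr)))
    (down_meets _ _ (hi β) s hs1) ?_
  rw [hz]
  exact down_meets _ _ (hi β') s hs2

/-- All but countably many of the reals omit infinitely many elements of a given infinite set. -/
theorem forced_np' (hW : ¬ Countable W) (p : Cond W J) (a : ℕ → Set (Cond W J)) :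
    p ∈ fimp (fall fun m : ℕ => fex fun n : ℕ => fand (fground (m ≤ n)) (meets (a n)))
      (fex fun e : ℕ → W → Set (Cond W J) => fand (IsFun e) (fall fun β =>
        fimp (fall fun i : ℕ => fnot (meets (e i β)))
          (fall fun m : ℕ => fex fun n : ℕ =>
            fand (fground (m ≤ n)) (fand (meets (a n)) (meets (XX W J β n false)))))) := by
  have hinf : Infinite W := infinite_of_unc hW
  refine mem_fimp.2 fun q hq hinfa => ⟨q, le_rfl, ?_⟩
  choose A hA1 hA2 using fun n => exists_countable_name (P := Cond W J) pccc (a n)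
  -- the blocks of the names
  let A0 : Set (BB W J) := ⋃ n, ⋃ s ∈ A n, (s.1.S : Set (BB W J))
  have hA0 : A0.Countable := Set.countable_iUnion fun n =>
    (hA1 n).biUnion fun s _ => s.1.S.countable_toSet
  have hA0g : A0 ⊆ Good TT := by
    intro b hb
    obtain ⟨n, hn⟩ := Set.mem_iUnion.1 hb
    obtain ⟨s, _, hs⟩ := Set.mem_iUnion₂.1 hn
    exact s.2.mem b hs
  let A1 : Set (BB W J) := Cl TT A0
  have hA1c : A1.Countable := countable_Cl wf_child hA0
  let M : Set W := (⋃ n, ⋃ s ∈ A n, (s.1.F : Set W)) ∪ ⋃ b ∈ A1, ⋃ i, ((TT b i).1.F : Set W)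
  have hM : M.Countable := (Set.countable_iUnion fun n =>
    (hA1 n).biUnion fun s _ => s.1.F.countable_toSet).union
      (hA1c.biUnion fun b _ => Set.countable_iUnion fun i => (TT b i).1.F.countable_toSet)
  obtain ⟨e0, he0⟩ : ∃ e0 : ℕ → W, M ⊆ Set.range e0 := by
    rcases M.eq_empty_or_nonempty with h | h
    · exact ⟨fun _ => Classical.arbitrary W, by rw [h]; exact Set.empty_subset _⟩
    · obtain ⟨e0, he0⟩ := hM.exists_eq_range h
      exact ⟨e0, he0.le⟩
  let e : ℕ → W → Set (Cond W J) := fun i β => {_p | e0 i = β}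
  have hme : ∀ (i : ℕ) (β : W) (r : Cond W J), r ∈ meets (e i β) → e0 i = β := by
    intro i β r hr
    obtain ⟨_, _, s, hs, _⟩ := hr r le_rfl
    exact hs
  refine mem_fex_of_mem e (down_fand (down_IsFun _) (down_fall fun _ => down_fimp _ _)) ⟨?_, ?_⟩
  · refine ⟨fun i => ?_, fun i β β' => mem_fimp.2 fun r _ hr => ⟨r, le_rfl, ?_⟩⟩
    · exact mem_fex_of_mem (e0 i) (down_meets _) (meets_of_mem rfl)
    · exact (hme i β r hr.1).symm.trans (hme i β' r hr.2)
  intro β
  refine mem_fimp.2 fun q0 hq0 hnot => ⟨q0, le_rfl, ?_⟩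
  have hβ : β ∉ M := by
    intro h
    obtain ⟨i, hi⟩ := he0 h
    exact hnot i q0 le_rfl (meets_of_mem hi)
  have hinfa' := down_fall (φ := fun m : ℕ => fex fun n : ℕ =>
    fand (fground (m ≤ n)) (meets (a n))) (fun _ => down_fex _) q hinfa q0 hq0
  have hβ1 : ∀ n, ∀ s ∈ A n, β ∉ s.1.F := fun n s hs h =>
    hβ (Or.inl (Set.mem_iUnion.2 ⟨n, Set.mem_iUnion₂.2 ⟨s, hs, h⟩⟩))
  have hβ2 : ∀ b ∈ A1, ∀ i, β ∉ (TT b i).1.F := fun b hb i h =>
    hβ (Or.inr (Set.mem_iUnion₂.2 ⟨b, hb, Set.mem_iUnion.2 ⟨i, h⟩⟩))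
  intro m
  refine mem_fex.2 fun q' hq' => ?_
  obtain ⟨q1, h1, h2, h3⟩ := exists_cond q' {β} m
  have hβq : β ∈ q1.1.F := h2 (Finset.mem_singleton_self β)
  obtain ⟨r, h4, n, h5, h6⟩ := mem_fex.1 (hinfa' q1.1.L) q1 (h1.trans hq')
  rw [← hA2 n] at h6
  obtain ⟨r1, h7, s, h8, h9⟩ := h6 r le_rfl
  obtain ⟨r2, h10, _, h11⟩ := exists_cond r1 ∅ (n + 1)
  obtain ⟨u, hu1, hu2, hu3, hu4, hu5, hu6⟩ := exists_clone (T := TT) (G := Good TT) (A := A1)
    (q := q1.1) (r := r2.1) (s := s.1) (β := β) (n := n) (closed_Cl A0) (Cl_good hA0g) q1.2 r2.2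
    (h10.trans (h7.trans h4)) (h10.trans h9)
    (fun b hb => sub_Cl A0 (Set.mem_iUnion.2 ⟨n, Set.mem_iUnion₂.2 ⟨s, h8, hb⟩⟩))
    (hβ1 n s h8) hβq hβ2 h5 h11
  obtain ⟨uc, rfl⟩ : ∃ uc : Cond W J, uc.1 = u := ⟨⟨u, hu1⟩, rfl⟩
  have hle : uc ≤ q1 := hu2
  refine ⟨uc, hle.trans h1, n, h3.trans h5, ?_, meets_of_mem ⟨hu4, hu5, hu6⟩⟩
  rw [← hA2 n]
  exact meets_of_le h8 hu3

theorem forced_strong (hW : ¬ Countable W) (hJ : #(W × K) * ℵ₀ < #J) (p : Cond W J) :
    p ∈ StrongN (Cond W J) W K J (XX W J) := by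
  have hinf : Infinite W := infinite_of_unc hW
  refine ⟨fun e => forced_unc hW p e, fun F m => forced_centred p F m,
    fun a => forced_np' hW p a, fun N => forced_cov p N, ?_⟩
  intro R
  refine mem_fimp.2 fun q _ hq => ?_
  have h1 : ∀ y : J, ∃ s ≤ q, ∃ x : W × K, s ∈ meets (R y x) := fun y => IsFun.total hq y
  choose f hf x hx using h1
  obtain ⟨y, y', hne, hz, s, hs1, hs2⟩ := (pccc (W := W) (J := J)).exists_compat_same
    (X := J) (Z := W × K) hJ f x
  refine ⟨s, hs1.trans (hf y), ?_⟩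
  refine mem_fex_of_mem y (down_fex _) (mem_fex_of_mem y'
    (down_fand (down_fground _) (down_fex _)) ⟨hne, mem_fex_of_mem (x y)
      (down_fand (down_meets _) (down_meets _)) ⟨down_meets _ _ (hx y) s hs1, ?_⟩⟩)
  rw [hz]
  exact down_meets _ _ (hx y') s hs2

theorem forced_exists' (hW : ¬ Countable W) (hJ : #(W × K) * ℵ₀ < #J) (p : Cond W J) :
    p ∈ StrongExistsN (Cond W J) W K J := by
  have hinf : Infinite W := infinite_of_unc hW
  have hd : Down (StrongN (Cond W J) W K J (XX W J)) :=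
    down_fand (down_fall fun _ => down_fimp _ _)
      (down_fand (down_fall fun _ => down_fall fun _ => down_fex _)
      (down_fand (down_fall fun _ => down_fimp _ _)
        (down_fand (down_fall fun _ => down_fimp _ _) (down_fall fun _ => down_fimp _ _))))
  exact mem_fex_of_mem (XX W J) (down_fand (down_fall fun _ => down_IsFun _) hd)
    ⟨fun β => isFun_XX β p, forced_strong hW hJ p⟩

/-- For all `W`, `K` with `W` uncountable there are `J` and a notion of forcing. -/
theorem exists_forcing' (W K : Type) (hW : ¬ Countable W) :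
    ∃ (J P : Type) (_ : Preorder P), Nonempty P ∧ ∀ p : P,
      p ∈ CardinalsPreserved.{0, 0} P ∧ p ∈ OmegaOnePreserved P ∧
        p ∈ StrongExistsN P W K J := by
  have hinf : Infinite W := infinite_of_unc hW
  refine ⟨Set (W × K ⊕ ℕ), Cond W (Set (W × K ⊕ ℕ)), inferInstance, inferInstance, fun p =>
    ⟨pccc.cardinalsPreserved p, pccc.omegaOnePreserved p, forced_exists' hW ?_ p⟩⟩
  rw [mk_set]
  have h1 : #(W × K) * ℵ₀ ≤ #(W × K ⊕ ℕ) := by
    rw [mk_sum, lift_id, lift_id, mk_nat]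
    have h2 : ℵ₀ ≤ #(W × K) + ℵ₀ := self_le_add_left _ _
    calc #(W × K) * ℵ₀ ≤ (#(W × K) + ℵ₀) * (#(W × K) + ℵ₀) :=
          mul_le_mul' (self_le_add_right _ _) h2
      _ = #(W × K) + ℵ₀ := mul_eq_self h2
  exact h1.trans_lt (cantor _)



end Pool.Agent.Y437.GM
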