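import Mathlib
import Pool.Agent.W635.GPZfc
import Pool.Agent.Y437.GM.Defs

/-!
# The strong principle gives a set of reals
-/

set_option autoImplicit false

namespace Pool.Agent.Y437.GM

open Set Filter Pool.Agent.Helper185.Del Pool.Agent.W635.GP

/-! ### Elementary facts on `ω`-covers -/

theorem exists_many {Z : Type*} [TopologicalSpace Z] {𝒰 : Set (Set Z)} (h𝒰 : IsOmegaCover 𝒰)
    (F : Set Z) (hF : F.Finite) (N : ℕ) :
    ∃ 𝒮 : Finset (Set Z), ↑𝒮 ⊆ 𝒰 ∧ 𝒮.card = N ∧ ∀ U ∈ 𝒮, F ⊆ U := by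
  classical
  induction N with
  | zero => exact ⟨∅, by simp, rfl, by simp⟩
  | succ N ih =>
    obtain ⟨𝒮, h1, h2, h3⟩ := ih
    have hne : ∀ U ∈ 𝒮, ∃ z, z ∉ U := by
      intro U hU
      by_contra hcon
      push Not at hcon
      exact h𝒰.2.2.1 (by rw [← eq_univ_of_forall hcon]; exact h1 hU)
    choose z hz using hne
    obtain ⟨U, hU, hFU⟩ := h𝒰.2.2.2 (F ∪ range fun V : 𝒮 => z V.1 V.2)
      (hF.union (finite_range _))
    have hU𝒮 : U ∉ 𝒮 := fun h => hz U h (hFU (Or.inr ⟨⟨U, h⟩, rfl⟩))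
    refine ⟨insert U 𝒮, ?_, by rw [Finset.card_insert_of_notMem hU𝒮, h2], fun V hV => ?_⟩
    · rw [Finset.coe_insert]
      exact insert_subset hU h1
    · rcases Finset.mem_insert.1 hV with rfl | hV
      · exact subset_union_left.trans hFU
      · exact h3 V hV

theorem exists_injective_choice {α : Type*} (t : ℕ → Finset α) (ht : ∀ n, n < (t n).card) :
    ∃ f : ℕ → α, Function.Injective f ∧ ∀ n, f n ∈ t n := by
  classical
  rw [← Finset.all_card_le_biUnion_card_iff_exists_injective]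
  intro s
  rcases s.eq_empty_or_nonempty with rfl | hs
  · simp
  · have h1 : s ⊆ Finset.range (s.max' hs + 1) := fun n hn =>
      Finset.mem_range.2 (Nat.lt_succ_of_le (s.le_max' n hn))
    calc s.card ≤ (Finset.range (s.max' hs + 1)).card := Finset.card_le_card h1
      _ = s.max' hs + 1 := Finset.card_range _
      _ ≤ (t (s.max' hs)).card := ht _
      _ ≤ (s.biUnion t).card := Finset.card_le_card
          (Finset.subset_biUnion_of_mem t (s.max'_mem hs))

section

variable {W K J : Type} {x : W → ℕ → Bool}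

/-- A basic neighbourhood in a power of a set of reals. -/
theorem exists_cyl_pow {S : Set (ℕ → Bool)} {ι : Type} [Finite ι] {O : Set (ι → S)}
    (hO : IsOpen O) {y : ι → S} (hy : y ∈ O) :
    ∃ m, ∀ z : ι → S, (∀ i, ∀ n < m, (z i : ℕ → Bool) n = (y i : ℕ → Bool) n) → z ∈ O := by
  classical
  have := Fintype.ofFinite ι
  obtain ⟨I, u, h1, h2⟩ := isOpen_pi_iff.1 hO y hy
  choose! m hm using fun i (hi : i ∈ I) => exists_cyl (h1 i hi).1 (h1 i hi).2
  refine ⟨I.sup m, fun z hz => h2 fun i hi => hm i hi (z i) fun n hn => hz i n ?_⟩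
  exact hn.trans_le (Finset.le_sup (f := m) hi)

/-- The selection property, for all finite powers and for many ultrafilters at once. -/
theorem selects_pow (h : StrongFamily W K J x) (ι : Type) [Finite ι] (p : K → Ultrafilter ℕ)
    (hp : ∀ i, Nonprincipal (p i)) : Selects p (ι → range x) := by
  classical
  obtain ⟨hunc, _, _, hcov, hpig⟩ := h
  intro 𝒰 h𝒰
  let X := range x
  let pt : W → X := fun β => ⟨x β, mem_range_self β⟩
  have hfin : ∀ (F : Finset W) (O : Set (ι → X)), IsOpen O →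
      (∀ b : ι → W, (∀ i, b i ∈ F) → (fun i => pt (b i)) ∈ O) → ∀ t : ℕ,
      ∃ c : Code, c.2 = t ∧ (∀ β ∈ F, Mem (x β) c) ∧
        ∀ z : ι → X, (∀ i, Mem (z i : ℕ → Bool) c) → z ∈ O := by
    intro F O hO hF t
    have := Fintype.ofFinite ι
    choose! m hm using fun (b : ι → W) (hb : ∀ i, b i ∈ F) => exists_cyl_pow hO (hF b hb)
    let BB : Finset (ι → W) := Fintype.piFinset fun _ => F
    let M := BB.sup m
    refine ⟨((M, F.image fun β => (Finset.range M).filter (fun n => x β n = true)), t), rfl,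
      fun β hβ => Finset.mem_image.2 ⟨β, hβ, rfl⟩, fun z hz => ?_⟩
    have hz' : ∀ i, ∃ β ∈ F, (Finset.range M).filter (fun n => x β n = true) =
        (Finset.range M).filter (fun n => (z i : ℕ → Bool) n = true) := fun i =>
      Finset.mem_image.1 (hz i)
    choose b hbF hb using hz'
    refine hm b hbF z fun i n hn => ?_
    have hbB : b ∈ BB := Fintype.mem_piFinset.2 hbF
    have hnM : n < M := hn.trans_le (Finset.le_sup (f := m) hbB)
    have h1 : n ∈ (Finset.range M).filter (fun n => x (b i) n = true) ↔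
        n ∈ (Finset.range M).filter (fun n => (z i : ℕ → Bool) n = true) := by rw [hb i]
    simp only [Finset.mem_filter, Finset.mem_range, hnM, true_and] at h1
    show (z i : ℕ → Bool) n = x (b i) n
    cases h2 : x (b i) n <;> cases h3 : (z i : ℕ → Bool) n <;> simp_all
  let N : Set Code := {c | ∀ k ≤ c.2, ∃ 𝒮 : Finset (Set (ι → X)), ↑𝒮 ⊆ 𝒰 k ∧ c.2 < 𝒮.card ∧
    ∀ U ∈ 𝒮, ∀ z : ι → X, (∀ i, Mem (z i : ℕ → Bool) c) → z ∈ U}
  obtain ⟨g, hg1, hg2, hg3⟩ := hcov N (by
    intro F m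
    have := Fintype.ofFinite ι
    let P : Set (ι → X) := (fun (b : ι → W) i => pt (b i)) '' {b | ∀ i, b i ∈ F}
    have hP : P.Finite := by
      apply Set.Finite.image
      apply (Fintype.piFinset fun _ : ι => F).finite_toSet.subset
      intro b hb
      exact Fintype.mem_piFinset.2 hb
    choose 𝒮 h1 h2 h3 using fun k => exists_many (h𝒰 k) P hP (m + 1)
    obtain ⟨c, hc1, hc2, hc3⟩ := hfin F (⋂ k ∈ Finset.range (m + 1), ⋂ U ∈ 𝒮 k, U)
      (isOpen_biInter_finset fun k _ => isOpen_biInter_finset fun U hU =>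
        (h𝒰 k).1 U (h1 k hU)) (fun b hb => by
          simp only [mem_iInter]
          exact fun k _ U hU => h3 k U hU ⟨b, hb, rfl⟩) m
    refine ⟨c, hc1.ge, fun k hk => ⟨𝒮 k, h1 k, by rw [h2, hc1]; omega, fun U hU z hz => ?_⟩,
      hc2⟩
    have h4 := hc3 z hz
    simp only [mem_iInter] at h4
    exact h4 k (Finset.mem_range.2 (by omega)) U hU)
  -- the choice of j
  obtain ⟨j, hj⟩ : ∃ j, ∀ i β, {n | Mem (x β) (g j n)} ∈ p i := by
    by_contra hcon
    push Not at hcon
    choose i f hf using hcon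
    obtain ⟨j, j', hne', hff⟩ := hpig fun j => (f j, i j)
    have hff1 : f j = f j' := congrArg Prod.fst hff
    have hff2 : i j = i j' := congrArg Prod.snd hff
    have h1 : {n | Mem (x (f j)) (g j n)}ᶜ ∈ p (i j) :=
      Ultrafilter.compl_mem_iff_notMem.2 (hf j)
    have h2 : {n | Mem (x (f j)) (g j' n)}ᶜ ∈ p (i j) := by
      rw [hff1, hff2]
      exact Ultrafilter.compl_mem_iff_notMem.2 (hf j')
    obtain ⟨m, hm⟩ := hg3 j j' hne' (f j)
    have h3 : {n | m ≤ n} ∈ p (i j) := hp (i j) (by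
      rw [mem_cofinite]
      apply (finite_lt_nat m).subset
      intro n hn
      simpa using hn)
    obtain ⟨n, ⟨hn1, hn2⟩, hn3⟩ := (p (i j)).nonempty_of_mem (inter_mem (inter_mem h1 h2) h3)
    rcases hm n hn3 with h4 | h4
    · exact hn1 h4
    · exact hn2 h4
  have htag : ∀ n, n ≤ (g j n).2 := by
    intro n
    induction n with
    | zero => exact Nat.zero_le _
    | succ n ih => exact Nat.succ_le_of_lt (ih.trans_lt (hg2 j n (n + 1) (Nat.lt_succ_self n)))
  choose 𝒮 h1 h2 h3 using fun n => hg1 j n n (htag n)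
  obtain ⟨U, hU1, hU2⟩ := exists_injective_choice 𝒮 fun n => (htag n).trans_lt (h2 n)
  refine ⟨U, hU1, fun n => h1 n (hU2 n), fun i z => ?_⟩
  have h4 : ∀ k : ι, {n | Mem (z k : ℕ → Bool) (g j n)} ∈ p i := by
    intro k
    obtain ⟨β, hβ⟩ := (z k).2
    rw [← hβ]
    exact hj i β
  have h5 : (⋂ k : ι, {n | Mem (z k : ℕ → Bool) (g j n)}) ∈ (p i : Filter ℕ) :=
    (Filter.iInter_mem).2 h4
  refine mem_of_superset h5 fun n hn => h3 n (U n) (hU2 n) z fun k => ?_
  exact mem_iInter.1 hn k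

/-- No uncountable subset has the property `δ`. -/
theorem not_delta (h : StrongFamily W K J x) {S : Set (ℕ → Bool)} (hS : S ⊆ range x)
    (hSc : ¬ S.Countable) : ¬ DeltaProperty S := by
  classical
  obtain ⟨_, hcen, hnp, _, _⟩ := h
  have hout : ∀ a : Set ℕ, (∀ m, ∃ n, m ≤ n ∧ n ∈ a) → ∃ C : Set (ℕ → Bool), C.Countable ∧
      ∀ y ∈ range x, y ∉ C → ∀ m, ∃ n, m ≤ n ∧ n ∈ a ∧ y n = false := by
    intro a ha
    obtain ⟨e, he⟩ := hnp a ha
    refine ⟨range fun i => x (e i), countable_range _, ?_⟩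
    rintro _ ⟨β, rfl⟩ hβ
    exact he β fun i hi => hβ ⟨i, congrArg x hi⟩
  let V : ℕ → Set S := fun n => {y | (y : ℕ → Bool) n = true}
  -- the index `n0`
  obtain ⟨n0, hn0⟩ : ∃ n0, ∀ n, n0 ≤ n → ¬ {y | y ∈ S ∧ y n = false}.Countable := by
    by_contra hcon
    push Not at hcon
    obtain ⟨C, hC, hC2⟩ := hout {n | {y | y ∈ S ∧ y n = false}.Countable} hcon
    have h1 : (C ∪ ⋃ n ∈ {n | {y | y ∈ S ∧ y n = false}.Countable},
        {y | y ∈ S ∧ y n = false}).Countable :=
      hC.union ((Set.to_countable _).biUnion fun n hn => hn)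
    obtain ⟨y, hyS, hy⟩ : ∃ y ∈ S, y ∉ (C ∪ ⋃ n ∈ {n | {y | y ∈ S ∧ y n = false}.Countable},
        {y | y ∈ S ∧ y n = false}) := by
      by_contra hcon2
      push Not at hcon2
      exact hSc (h1.mono hcon2)
    obtain ⟨n, _, hn, hyn⟩ := hC2 y (hS hyS) (fun h => hy (Or.inl h)) 0
    exact hy (Or.inr (mem_iUnion₂.2 ⟨n, hn, hyS, hyn⟩))
  have hVc : ∀ n, n0 ≤ n → ∀ C : Set S, C.Countable → ¬ (univ ⊆ V n ∪ C) := by
    intro n hn C hC hu
    apply hn0 n hn
    refine (hC.image Subtype.val).mono ?_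
    rintro y ⟨hyS, hyn⟩
    rcases hu (mem_univ ⟨y, hyS⟩) with h1 | h1
    · have h2 : y n = true := h1
      rw [hyn] at h2
      exact absurd h2 (by simp)
    · exact ⟨⟨y, hyS⟩, h1, rfl⟩
  have h4 : ∀ F : Set S, F.Finite → ∃ U ∈ V '' Ici n0, F ⊆ U := by
    intro F hF
    have h1 : ∀ y : S, ∃ β, x β = y := fun y => hS y.2
    choose b hb using h1
    obtain ⟨n, hn0', hn⟩ := hcen (hF.toFinset.image b) n0
    refine ⟨V n, ⟨n, hn0', rfl⟩, fun y hy => ?_⟩
    show (y : ℕ → Bool) n = true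
    rw [← hb y]
    exact hn (b y) (Finset.mem_image.2 ⟨y, hF.mem_toFinset.2 hy, rfl⟩)
  intro hδ
  have hcov : IsOmegaCover (V '' Ici n0) := by
    refine ⟨?_, ?_, ?_, h4⟩
    · rintro _ ⟨n, _, rfl⟩
      have hc : Continuous (fun z : S => (z : ℕ → Bool) n) :=
        (continuous_apply n).comp continuous_subtype_val
      exact (isOpen_discrete ({true} : Set Bool)).preimage hc
    · refine eq_univ_of_forall fun y => ?_
      obtain ⟨U, hU, hyU⟩ := h4 {y} (finite_singleton y)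
      exact ⟨U, hU, hyU rfl⟩
    · rintro ⟨n, hn, hVn⟩
      exact hVc n hn ∅ countable_empty (by rw [hVn]; exact subset_union_left)
  let ℒ : Set (Set S) := {A | ∃ n, n0 ≤ n ∧ ∃ C : Set S, C.Countable ∧ A ⊆ V n ∪ C}
  obtain ⟨n, hn, C, hC, hu⟩ : univ ∈ ℒ := by
    refine hδ _ hcov ℒ ⟨?_, fun A hA => ?_⟩
    · rintro _ ⟨n, hn, rfl⟩
      exact ⟨n, hn, ∅, countable_empty, subset_union_left⟩
    choose ν hν C hC hAC using hA
    by_cases hinf : ∃ n, ∀ m, ∃ k, m ≤ k ∧ ν k = n
    · obtain ⟨n, hn⟩ := hinf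
      have hn' : n0 ≤ n := by
        obtain ⟨k, _, hk⟩ := hn 0
        rw [← hk]
        exact hν k
      refine ⟨n, hn', ⋃ k, C k, countable_iUnion hC, fun z hz => ?_⟩
      obtain ⟨m, hm⟩ := eventually_atTop.1 (show ∀ᶠ k in atTop, z ∈ A k from hz)
      obtain ⟨k, hk, hkn⟩ := hn m
      rcases hAC k (hm k hk) with h1 | h1
      · rw [hkn] at h1
        exact Or.inl h1
      · exact Or.inr (mem_iUnion.2 ⟨k, h1⟩)
    · push Not at hinf
      choose B hB using hinf
      -- the values tend to infinity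
      have hbig : ∀ M : ℕ, ∃ m, ∀ k, m ≤ k → M ≤ ν k := by
        intro M
        refine ⟨(Finset.range M).sup B, fun k hk => ?_⟩
        by_contra hlt
        push Not at hlt
        exact hB (ν k) k ((Finset.le_sup (f := B) (Finset.mem_range.2 hlt)).trans hk) rfl
      obtain ⟨D, hD, hD2⟩ := hout (range ν) (fun m => by
        obtain ⟨k, hk⟩ := hbig m
        exact ⟨ν k, hk k le_rfl, k, rfl⟩)
      refine ⟨n0, le_rfl, (⋃ k, C k) ∪ {z | (z : ℕ → Bool) ∈ D},
        (countable_iUnion hC).union (hD.preimage Subtype.val_injective), fun z hz => ?_⟩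
      right
      by_contra hcon
      rw [mem_union, not_or] at hcon
      obtain ⟨m, hm⟩ := eventually_atTop.1 (show ∀ᶠ k in atTop, z ∈ A k from hz)
      -- all `k ≥ m` have `z ∈ V (ν k)`
      have hzV : ∀ k, m ≤ k → (z : ℕ → Bool) (ν k) = true := by
        intro k hk
        rcases hAC k (hm k hk) with h1 | h1
        · exact h1
        · exact absurd (mem_iUnion.2 ⟨k, h1⟩) hcon.1
      obtain ⟨n, hn, ⟨k, rfl⟩, hzn⟩ := hD2 z (hS z.2) hcon.2
        ((Finset.range m).sup fun k => ν k + 1)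
      have hkm : m ≤ k := by
        by_contra hlt
        push Not at hlt
        have h9 : ν k + 1 ≤ (Finset.range m).sup fun k => ν k + 1 :=
          Finset.le_sup (f := fun k => ν k + 1) (Finset.mem_range.2 hlt)
        omega
      rw [hzV k hkm] at hzn
      exact absurd hzn (by simp)
  exact hVc n hn C hC hu

/-- The property `γ` implies the property `δ`. -/
theorem gamma_delta {Z : Type*} [TopologicalSpace Z] (h : GammaProperty Z) : DeltaProperty Z := by
  intro 𝒰 h𝒰
  obtain ⟨𝒱, h1, h2, h3, h4⟩ := h 𝒰 h𝒰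
  obtain ⟨v, hv⟩ : ∃ v : ℕ → Set Z, Function.Injective v ∧ ∀ n, v n ∈ 𝒱 := by
    have := h3.to_subtype
    refine ⟨fun n => (Infinite.natEmbedding 𝒱 n : Set Z), fun a b hab => ?_,
      fun n => (Infinite.natEmbedding 𝒱 n).2⟩
    exact (Infinite.natEmbedding 𝒱).injective (Subtype.ext hab)
  rintro ℒ ⟨hℒ1, hℒ2⟩
  have h5 : sLim v = univ := by
    refine eq_univ_of_forall fun z => ?_
    have h6 : {n | z ∉ v n}.Finite := by
      apply Set.Finite.of_finite_image (f := v) _ hv.1.injOn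
      refine (h4 z).subset ?_
      rintro _ ⟨n, hn, rfl⟩
      exact ⟨hv.2 n, hn⟩
    show ∀ᶠ n in atTop, z ∈ v n
    obtain ⟨m, hm⟩ := h6.bddAbove
    filter_upwards [eventually_gt_atTop m] with n hn
    by_contra hcon
    exact absurd (hm hcon) (not_le.2 hn)
  rw [← h5]
  exact hℒ2 v fun n => hℒ1 (h1 (hv.2 n))

/-- The fibres are countable. -/
theorem mk_range (h : StrongFamily W K J x) : Cardinal.mk (range x) = Cardinal.mk W := by
  obtain ⟨hunc, hcen, hnp, _, _⟩ := h
  have hfib : ∀ y : range x, {β | x β = y}.Countable := by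
    rintro ⟨_, β, rfl⟩
    obtain ⟨e, he⟩ := hnp {n | x β n = true} (fun m => by
      obtain ⟨n, hn, hn2⟩ := hcen {β} m
      exact ⟨n, hn, hn2 β (Finset.mem_singleton_self β)⟩)
    refine (countable_range e).mono fun β' hβ' => ?_
    by_contra hcon
    obtain ⟨n, _, hn, hn2⟩ := he β' (fun i hi => hcon ⟨i, hi⟩) 0
    have h1 : x β' = x β := hβ'
    rw [h1] at hn2
    have h2 : x β n = true := hn
    rw [hn2] at h2
    exact absurd h2 (by simp)
  have hle : Cardinal.mk (range x) ≤ Cardinal.mk W := Cardinal.mk_range_le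
  refine le_antisymm hle ?_
  have h1 : Cardinal.mk W = Cardinal.sum fun y : range x =>
      Cardinal.mk {β // rangeFactorization x β = y} := by
    rw [← Cardinal.mk_sigma]
    exact (Equiv.sigmaFiberEquiv (rangeFactorization x)).symm.cardinal_eq
  have h2 : Cardinal.mk W ≤ Cardinal.mk (range x) * Cardinal.aleph0 := by
    rw [h1]
    refine (Cardinal.sum_le_sum _ (fun _ => Cardinal.aleph0) fun y => ?_).trans ?_
    · rw [Cardinal.mk_le_aleph0_iff]
      have h3 := (hfib y).to_subtype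
      exact (Set.Countable.mono (s₁ := {β | rangeFactorization x β = y})
        (fun β hβ => congrArg Subtype.val hβ) (hfib y)).to_subtype
    · rw [Cardinal.sum_const']
  have hWunc : ¬ Cardinal.mk W ≤ Cardinal.aleph0 := by
    rw [Cardinal.mk_le_aleph0_iff]
    intro hc
    obtain ⟨e1, -⟩ := hnp univ fun m => ⟨m, le_rfl, mem_univ m⟩
    have hWn : Nonempty W := ⟨e1 0⟩
    obtain ⟨e, he⟩ := exists_surjective_nat W
    obtain ⟨β, hβ⟩ := hunc e
    obtain ⟨i, hi⟩ := he β
    exact hβ i hi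
  rcases le_total (Cardinal.mk (range x)) Cardinal.aleph0 with h3 | h3
  · exfalso
    apply hWunc
    calc Cardinal.mk W ≤ Cardinal.mk (range x) * Cardinal.aleph0 := h2
      _ ≤ Cardinal.aleph0 * Cardinal.aleph0 := mul_le_mul' h3 le_rfl
      _ = Cardinal.aleph0 := Cardinal.aleph0_mul_aleph0
  · rwa [Cardinal.mul_aleph0_eq h3] at h2

end

/-! ### Homeomorphic spaces -/

section Transport

variable {A B : Type*} [TopologicalSpace A] [TopologicalSpace B]

theorem Selects.transport {K : Type*} {p : K → Ultrafilter ℕ} (e : A ≃ₜ B) (h : Selects p A) :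
    Selects p B := by
  intro 𝒰 h𝒰
  obtain ⟨U, hinj, hU, hx⟩ := h _ fun n => omega_pull' e (h𝒰 n)
  choose V hV hVU using hU
  refine ⟨V, fun n n' hnn => hinj ?_, hV, fun i x => ?_⟩
  · rw [← hVU n, ← hVU n', hnn]
  · refine mem_of_superset (hx i (e.symm x)) (fun n hn => ?_)
    have h1 : e.symm x ∈ U n := hn
    rw [← hVU n] at h1
    have : e (e.symm x) ∈ V n := h1
    rwa [Homeomorph.apply_symm_apply] at this

theorem DeltaProperty.transport (e : A ≃ₜ B) (h : DeltaProperty A) : DeltaProperty B := by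
  intro 𝒰 h𝒰
  rintro ℒ ⟨hℒ1, hℒ2⟩
  have hback : ∀ W : Set B, e.symm ⁻¹' (e ⁻¹' W) = W := by
    intro W
    ext x
    simp
  have h1 := h _ (omega_pull' e h𝒰) {V | e.symm ⁻¹' V ∈ ℒ} ⟨?_, fun V hV => ?_⟩
  · exact h1
  · rintro _ ⟨U, hU, rfl⟩
    change e.symm ⁻¹' (e ⁻¹' U) ∈ ℒ
    rw [hback]
    exact hℒ1 hU
  · exact hℒ2 (fun n => e.symm ⁻¹' V n) hV

end Transport

/-- The selection property for a space and one ultrafilter gives the property `γ_p`. -/
theorem Selects.gammaPInj {K Z : Type*} [TopologicalSpace Z] {p : K → Ultrafilter ℕ}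
    (h : Selects p Z) (i : K) : GammaPInj (p i) Z := by
  intro 𝒰 h𝒰
  obtain ⟨U, h1, h2, h3⟩ := h (fun _ => 𝒰) fun _ => h𝒰
  exact ⟨U, h1, h2, fun z => h3 i z⟩

/-- The set of reals. -/
theorem exists_reals' {W K J : Type} {x : W → ℕ → Bool} (h : StrongFamily W K J x) :
    ∃ X : Set ℝ, Cardinal.mk X = Cardinal.mk W ∧ ¬ X.Countable ∧
      (∀ p : K → Ultrafilter ℕ, (∀ i, Nonprincipal (p i)) →
        Selects p X ∧ ∀ k : ℕ, Selects p (Fin k → X)) ∧
      ∀ Y ⊆ X, ¬ Y.Countable → ¬ DeltaProperty Y ∧ ¬ GammaProperty Y := by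
  obtain ⟨g, hg⟩ : ∃ g : (ℕ → Bool) → ℝ, Topology.IsEmbedding g :=
    ⟨fun x => ((cantorSetHomeomorphNatToBool.symm x : cantorSet) : ℝ),
      Topology.IsEmbedding.subtypeVal.comp cantorSetHomeomorphNatToBool.symm.isEmbedding⟩
  have hhom : ∀ S : Set (ℕ → Bool), Nonempty (S ≃ₜ (g '' S : Set ℝ)) := by
    intro S
    have hgX : Topology.IsEmbedding (fun y : S => g y) :=
      hg.comp Topology.IsEmbedding.subtypeVal
    have h1 : range (fun y : S => g y) = g '' S := by
      ext r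
      constructor
      · rintro ⟨y, rfl⟩
        exact ⟨y, y.2, rfl⟩
      · rintro ⟨y, hy, rfl⟩
        exact ⟨⟨y, hy⟩, rfl⟩
    rw [← h1]
    exact ⟨hgX.toHomeomorph⟩
  obtain ⟨e⟩ := hhom (range x)
  have hcard : Cardinal.mk (g '' range x : Set ℝ) = Cardinal.mk W := by
    rw [← mk_range h]
    exact e.toEquiv.cardinal_eq.symm
  have hunc : ¬ (g '' range x : Set ℝ).Countable := by
    intro hc
    have h1 : Cardinal.mk W ≤ Cardinal.aleph0 := by
      rw [← hcard]
      exact Cardinal.mk_le_aleph0_iff.2 hc.to_subtype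
    rw [Cardinal.mk_le_aleph0_iff] at h1
    obtain ⟨h0, _, hnp, _, _⟩ := h
    obtain ⟨e1, -⟩ := hnp univ fun m => ⟨m, le_rfl, mem_univ m⟩
    have hWn : Nonempty W := ⟨e1 0⟩
    obtain ⟨e, he⟩ := exists_surjective_nat W
    obtain ⟨β, hβ⟩ := h0 e
    obtain ⟨i, hi⟩ := he β
    exact hβ i hi
  refine ⟨g '' range x, hcard, hunc, fun p hp => ⟨?_, fun k => ?_⟩, fun Y hY hYc => ?_⟩
  · exact (selects_pow h Unit p hp).transport
      ((Homeomorph.funUnique Unit (range x)).trans e)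
  · exact (selects_pow h (Fin k) p hp).transport (Homeomorph.piCongrRight fun _ => e)
  · have hYS : Y = g '' (g ⁻¹' Y) := by
      rw [image_preimage_eq_of_subset (hY.trans (image_subset_range _ _))]
    have hS : g ⁻¹' Y ⊆ range x := by
      intro y hy
      obtain ⟨z, hz, hzy⟩ := hY hy
      rwa [← hg.injective hzy]
    have hSc : ¬ (g ⁻¹' Y).Countable := by
      intro hc
      apply hYc
      rw [hYS]
      exact hc.image g
    have h1 := not_delta h hS hSc
    obtain ⟨e'⟩ := hhom (g ⁻¹' Y)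
    rw [← hYS] at e'
    exact ⟨fun h2 => h1 (h2.transport e'.symm), fun h2 => h1 ((gamma_delta h2).transport e'.symm)⟩

end Pool.Agent.Y437.GM
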